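import Pool.Agent.Lib.ZK26.Boch
import Pool.Agent.Lib.HS.B_CLG

/-! The inequality of Chern and Lu for the norm of a holomorphic form of degree one. -/

open scoped Classical Topology ContDiff ComplexOrder Matrix
open Filter Complex Matrix

noncomputable section

namespace Pool.Agent.Lib.ZK26

open Pool.Agent.Lib.SV (E)
open Pool.Agent.Lib.HS32
open Pool.Agent.Lib.HS68

section alg

variable {ι A : Type} [CommRing A] [StarRing A] [Fintype ι] [DecidableEq ι] {D : DR ι A}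
  {G : Matrix ι ι A}

theorem tr_vec (T U : ι → A) : trace (G⁻¹ * vecMulVec (star U) T) = sp G T U := by
  simp only [sp, trace, diag_apply, Matrix.mul_apply, vecMulVec_apply, Pi.star_apply]

theorem sp_zero (T : ι → A) : sp G T (fun _ => 0) = 0 := by simp [sp]

theorem sp_zero' (T : ι → A) : sp G (fun _ => 0) T = 0 := by simp [sp]

theorem sp_act (R : Matrix ι ι A) (T : ι → A) :
    sp G (fun k => ∑ m, R m k * T m) T = trace (R * G⁻¹ * vecMulVec (star T) T) := by
  simp only [sp, trace, diag_apply, Matrix.mul_apply, vecMulVec_apply, Pi.star_apply,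
    Finset.mul_sum, Finset.sum_mul]
  rw [DR.sum_swap3]
  refine Finset.sum_congr rfl fun m _ => Finset.sum_congr rfl fun l _ =>
    Finset.sum_congr rfl fun k _ => ?_
  ring

theorem d_hol (hu : IsUnit G.det) {T : ι → A} (h : ∀ i k, D.db i (T k) = 0) (j : ι) :
    D.d j (sp G T T) = sp G (nb D G j T) T := by
  rw [d_sp hu]
  simp only [h, sp_zero, add_zero]

theorem lap_hol (hG : G.IsHermitian) (hu : IsUnit G.det) (hK : D.Kah G) {T : ι → A}
    (h : ∀ i k, D.db i (T k) = 0) : D.lap G (sp G T T) =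
      ∑ j, ∑ i, G⁻¹ j i * sp G (nb D G j T) (nb D G i T) +
      trace (G⁻¹ * D.Ric G * G⁻¹ * vecMulVec (star T) T) := by
  have e : ∀ k, ∑ j, ∑ i, G⁻¹ j i * ∑ m, D.Th G j i m k * T m =
      ∑ m, (G⁻¹ * D.Ric G) m k * T m := fun k => by
    rw [← D.ctr_Th hG hu hK]
    simp only [Matrix.sum_apply, Matrix.smul_apply, smul_eq_mul, Finset.mul_sum, Finset.sum_mul,
      mul_assoc]
    calc _ = ∑ j, ∑ m, ∑ i, G⁻¹ j i * (D.Th G j i m k * T m) :=
          Finset.sum_congr rfl fun _ _ => Finset.sum_comm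
      _ = _ := Finset.sum_comm
  have e0 : ∀ j k, nb D G j (fun _ => (0 : A)) k = 0 := fun j k => by simp [nb]
  rw [lap_sp hG hu]
  simp only [h, e, e0, sp_act, mul_zero, Finset.sum_const_zero, sp_zero, sp_zero', add_zero]

theorem sp_comb (hG : G.IsHermitian) (T U V : ι → A) (a b c d : A) :
    sp G (fun k => a * U k + b * T k) (fun k => c * V k + d * T k) =
      a * star c * sp G U V + a * star d * sp G U T + b * star c * star (sp G V T) +
        b * star d * sp G T T := by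
  rw [star_sp hG]
  simp only [sp, star_add, star_mul', Finset.mul_sum, ← Finset.sum_add_distrib]
  refine Finset.sum_congr rfl fun k _ => Finset.sum_congr rfl fun l _ => ?_
  ring

end alg

theorem grad_sp {ι : Type} [Fintype ι] [DecidableEq ι] {G : Matrix ι ι ℂ} (hG : G.PosDef)
    (T : ι → ℂ) (U : ι → ι → ℂ) (h0 : 0 < (sp G T T).re) :
    (∑ j, ∑ i, G⁻¹ j i * (star (sp G (U i) T) * sp G (U j) T)).re ≤
      (sp G T T).re * (∑ j, ∑ i, G⁻¹ j i * sp G (U j) (U i)).re := by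
  have h1 : sp G T T = ((sp G T T).re : ℂ) := (conj_eq_iff_re.1 (star_sp hG.1 T T)).symm
  have h := (nonneg_iff.1 (ctr_sp_nonneg hG fun j k =>
    sp G T T * U j k + -sp G (U j) T * T k)).1
  simp only [sp_comb hG.1, star_sp hG.1 T T] at h
  have e : ∑ j, ∑ i, G⁻¹ j i * (sp G T T * sp G T T * sp G (U j) (U i) +
      sp G T T * star (-sp G (U i) T) * sp G (U j) T +
      -sp G (U j) T * sp G T T * star (sp G (U i) T) +
      -sp G (U j) T * star (-sp G (U i) T) * sp G T T) =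
      sp G T T * (sp G T T * (∑ j, ∑ i, G⁻¹ j i * sp G (U j) (U i)) -
        ∑ j, ∑ i, G⁻¹ j i * (star (sp G (U i) T) * sp G (U j) T)) := by
    simp only [mul_sub, Finset.mul_sum, ← Finset.sum_sub_distrib, star_neg]
    refine Finset.sum_congr rfl fun j _ => Finset.sum_congr rfl fun i _ => ?_
    ring
  rw [e, h1, re_ofReal_mul, sub_re, re_ofReal_mul] at h
  exact sub_nonneg.1 (nonneg_of_mul_nonneg_right h h0)

variable {n : ℕ} {z : E n} {G : E n → Mat n} {ξ : E n → E n}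

/-- The covariant derivative of a form in coordinates. -/
def nbV (G : E n → Mat n) (ξ : E n → E n) (j k : Fin n) (z : E n) : ℂ :=
  dz j (fun w => ξ w k) z - ∑ m, gam G j z m k * ξ z m

theorem hol_loc (h : Loc G z) (hK : Kl G z) (hξ : HolN ξ z) :
    ((G z)⁻¹ * hess (fun w => sp (G w) (ξ w) (ξ w)) z).trace =
      ∑ j, ∑ i, (G z)⁻¹ j i * sp (G z) (fun k => nbV G ξ j k z) (fun k => nbV G ξ i k z) +
      ((G z)⁻¹ * ricF G z * (G z)⁻¹ * vecMulVec (star (ξ z)) (ξ z)).trace ∧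
    ∀ j, dz j (fun w => sp (G w) (ξ w) (ξ w)) z = sp (G z) (fun k => nbV G ξ j k z) (ξ z) := by
  obtain ⟨M, hM, h1, hv⟩ := h.rep
  have hk : ∀ k, HolN (fun w => ξ w k) z := fun k =>
    hξ.mono fun w hw => differentiableAt_pi.1 hw k
  choose a ha using fun k => exists_rep ((mHOL n _ z).2.2 (hk k)).1
  have h0 := h.det_ne
  have hi := hM.inv h0
  have hb : ∀ i k, (germDR z).db i (a k) = 0 := fun i k => ((ha k).db i).ext Rep.zero
    ((hk k).mono fun w hw => ((mHOL n _ w).1 (hw.restrictScalars ℝ)).1 hw i)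
  have hn : ∀ j k, Rep (nb (germDR z) M j a k) (nbV G ξ j k) :=
    fun j k => ((ha k).d j).sub (Rep.sum _ fun m => (hM.gam h0 j m k).mul (ha m))
  have hs : Rep (sp M a a) fun w => sp (G w) (ξ w) (ξ w) :=
    Rep.sum _ fun k => Rep.sum _ fun l => (hi k l).mul ((ha l).star.mul (ha k))
  have hx : RepM (vecMulVec (star a) a) fun w => vecMulVec (star (ξ w)) (ξ w) :=
    fun i j => (ha i).star.mul (ha j)
  exact ⟨(hM.lap h0 hs).val
    ((Rep.sum _ fun j => Rep.sum _ fun i => (hi j i).mul (Rep.sum _ fun k => Rep.sum _ fun l =>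
      (hi k l).mul ((hn i l).star.mul (hn j k)))).add
      (((hi.mul (h.rep_ric hM)).mul hi).mul hx).trace) (lap_hol h1 hv (hM.kl hK) hb),
    fun j => (hs.d j).val (Rep.sum _ fun k => Rep.sum _ fun l =>
      (hi k l).mul ((ha l).star.mul (hn j k))) (d_hol hv hb j)⟩

/-- The form is locally the square of a holomorphic form of degree one. -/
def Sq (M : Mf n) (A : M.Fam (Mat n)) : Prop := ∀ x, ∃ e ∈ M.C, x ∈ e.source ∧
  ∃ ξ : E n → E n, HolN ξ (e x) ∧ ∀ᶠ w in 𝓝 (e x), A e w = vecMulVec (star (ξ w)) (ξ w)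

variable {M : Mf n} {G A Q : M.Fam (Mat n)}

/-- The inequality of Chern and Lu. -/
theorem cl_hol (hG : M.Kae G) (hA : M.Form A) (hs : Sq M A) (hp : ∀ x, 0 < M.tr G A x) (x : M.X) :
    M.ip G (M.ric G) A x / M.tr G A x ≤ M.lap G (fun y => Real.log (M.tr G A y)) x := by
  obtain ⟨i1, i2, i3, -⟩ := mINV n M G hG.toMet
  obtain ⟨e1, e2, -, -, -, -, -, -, e3, -⟩ := mHES n M
  have hS : M.Sm (M.tr G A) := (i1 A hA.toTen).2.1
  obtain ⟨e, he, hx, ξ, hξ, hv⟩ := hs x
  have hz := e.map_source hx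
  have lG := met_loc hG.toMet he hz
  obtain ⟨k1, k2⟩ := hol_loc lG (clo_kl hG.toClo he hz) hξ
  have v1 : M.lc (M.tr G A) e =ᶠ[𝓝 (e x)] fun w => sp (G e w) (ξ w) (ξ w) := by
    filter_upwards [(i2 A hA).ev he hz, hv] with w h1 h2
    rw [← tr_vec, ← h2]
    exact h1.1
  have a : M.lap G (M.tr G A) x = _ := (i1 _ (e1 _ hS).toTen).1.at he hx
  have b : M.ip G (M.ric G) A x = _ := (i3 _ A (e3 G hG.toMet).toTen hA.toTen).1.at he hx
  have c : M.gr G (M.tr G A) (M.tr G A) x = _ := (i1 _ (e2 _ _ hS hS).1).1.at he hx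
  have d : M.tr G A x = (sp (G e (e x)) (ξ (e x)) (ξ (e x))).re := by
    have := congrArg Complex.re v1.self_of_nhds
    rwa [Mf.lc, e.left_inv hx, ofReal_re] at this
  beta_reduce at a b c
  rw [Mf.hs, hess_congr v1, k1, add_re, ← hv.self_of_nhds] at a
  have f1 : ∀ k, dz k (M.lc (M.tr G A) e) (e x) = _ := fun k => (dz_congr v1).trans (k2 k)
  have f2 : ∀ k, dzb k (M.lc (M.tr G A) e) (e x) = star (dz k (M.lc (M.tr G A) e) (e x)) :=
    fun k => (star_dz_ofReal (cd_diff (hS.lc e he _ hz))).symm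
  have g := grad_sp lG.pos (ξ (e x)) (fun j k => nbV (G e) ξ j k (e x)) (d ▸ hp x)
  simp only [Mf.ds, dd, f2, f1, trace, diag_apply, Matrix.mul_apply, of_apply] at c
  rw [← c, ← d] at g
  obtain ⟨-, -, -, l4, -⟩ := (mLAP n M _ _ hS hS).2.2 G hG.toMet
  rw [(l4 Real.log (fun y => Real.contDiffAt_log.2 (hp y).ne') x).1, HS.CLG.deriv2_log,
    Real.deriv_log]
  exact HS.CLG.last (hp x) (q := 0) (by rw [a, b, add_zero]; rfl) g le_rfl

theorem ip_sq (hG : M.Met G) (hA : M.Form A) (hs : Sq M A) (hQ : M.Form Q) (h0 : M.Le 0 Q)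
    (x : M.X) : M.ip G A A x = M.tr G A x ^ 2 ∧ M.ip G Q A x ≤ M.tr G Q x * M.tr G A x ∧
      ∀ S T, M.Ten S → M.Ten T → M.Le S T → M.ip G S A x ≤ M.ip G T A x := by
  obtain ⟨i1, -, i3, -⟩ := mINV n M G hG
  obtain ⟨e, he, hx, ξ, -, hv⟩ := hs x
  have hz := e.map_source hx
  have gp := hG.pos e he _ hz
  have hv := hv.self_of_nhds
  have ap : (A e (e x)).PosSemidef := hv ▸ Matrix.posSemidef_vecMulVec_star_self _
  have mono : ∀ S T, M.Ten S → M.Ten T → M.Le S T → M.ip G S A x ≤ M.ip G T A x := by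
    intro S T hS hT h
    rw [Mf.ip_comm, Mf.ip_comm (S := T), (i3 _ _ hA.toTen hS).1.at he hx,
      (i3 _ _ hA.toTen hT).1.at he hx]
    exact HS76.tr_mul_mono (HS76.conj_inv_psd gp ap) (h e he _ hz)
  refine ⟨?_, ?_, mono⟩
  · rw [(i3 _ _ hA.toTen hA.toTen).1.at he hx, (i1 _ hA.toTen).1.at he hx]
    have h1 : sp (G e (e x)) (ξ (e x)) (ξ (e x)) = ((sp (G e (e x)) (ξ (e x)) (ξ (e x))).re : ℂ) :=
      (conj_eq_iff_re.1 (star_sp gp.1 _ _)).symm
    have h2 : (fun k => ∑ m, ((G e (e x))⁻¹ * vecMulVec (star (ξ (e x))) (ξ (e x))) m k *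
        ξ (e x) m) = fun k => sp (G e (e x)) (ξ (e x)) (ξ (e x)) * ξ (e x) k := by
      funext k
      simp only [sp, Matrix.mul_apply, vecMulVec_apply, Pi.star_apply, Finset.sum_mul]
      refine Finset.sum_congr rfl fun m _ => Finset.sum_congr rfl fun l _ => ?_
      ring
    rw [hv, ← sp_act, tr_vec, h2, sp_smul, h1, ← ofReal_mul, ofReal_re, ofReal_re, sq]
  · have qp : (Q e (e x)).PosSemidef := by simpa using h0 e he _ hz
    have h := HS76.tr_mul_mono (HS76.conj_inv_psd gp ap) (HS76.le_tr_smul gp qp le_rfl)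
    rw [Mf.ip_comm, (i3 _ _ hA.toTen hQ.toTen).1.at he hx, (i1 _ hA.toTen).1.at he hx,
      (i1 _ hQ.toTen).1.at he hx]
    rwa [Matrix.mul_smul, Matrix.nonsing_inv_mul_cancel_right _ _ gp.det_pos.ne'.isUnit,
      trace_smul, smul_eq_mul, re_ofReal_mul] at h

/-- The form used on a product with a torus. -/
theorem cl_hol_le (hG : M.Kae G) (hA : M.Form A) (hs : Sq M A) (hp : ∀ x, 0 < M.tr G A x)
    (hQ : M.Form Q) (h0 : M.Le 0 Q) {N : ℝ} (hr : M.Le (N • A - G - Q) (M.ric G)) (x : M.X) :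
    N * M.tr G A x - 1 - M.tr G Q x ≤ M.lap G (fun y => Real.log (M.tr G A y)) x := by
  obtain ⟨a, b, c⟩ := ip_sq hG.toMet hA hs hQ h0 x
  have d := c _ _ (((hA.toTen.smul N).sub hG.toTen).sub hQ.toTen)
    ((mHES n M).2.2.2.2.2.2.2.2.1 G hG.toMet).toTen hr
  rw [Mf.ip_comm, Mf.ip_sub, Mf.ip_sub, Mf.ip_smul, hG.toMet.ip_self, a, Mf.ip_comm] at d
  refine le_trans ?_ (cl_hol hG hA hs hp x)
  rw [le_div_iff₀ (hp x)]
  nlinarith

end Pool.Agent.Lib.ZK26
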