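import Pool.Agent.Lib.HS68.Fun
import Pool.Agent.Lib.HS32.MAll

/-! The inequality of Bochner for the squared norm of a gradient on a Kaehler manifold. -/

open scoped Classical Topology ContDiff ComplexOrder Matrix
open Filter Complex Matrix

noncomputable section

namespace Pool.Agent.Lib.ZK26

open Pool.Agent.Lib.SV (E)
open Pool.Agent.Lib.HS32
open Pool.Agent.Lib.HS68

section alg

variable {ι A : Type} [CommRing A] [StarRing A] [Fintype ι] [DecidableEq ι]

/-- The scalar product of two forms of degree one. -/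
def sp (G : Matrix ι ι A) (T U : ι → A) : A := ∑ k, ∑ l, G⁻¹ k l * (star (U l) * T k)

/-- The covariant derivative of a form of degree one. -/
def nb (D : DR ι A) (G : Matrix ι ι A) (j : ι) (T : ι → A) (k : ι) : A :=
  D.d j (T k) - ∑ m, D.Gam G j m k * T m

/-- The product of two gradients. -/
def ddA (D : DR ι A) (f g : A) : Matrix ι ι A := Matrix.of fun i j => D.db i f * D.d j g

variable {D : DR ι A} {G : Matrix ι ι A}

theorem star_sp (hG : G.IsHermitian) (T U : ι → A) : star (sp G T U) = sp G U T := by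
  simp only [sp, star_sum, star_mul', star_star]
  rw [Finset.sum_comm]
  refine Finset.sum_congr rfl fun k _ => Finset.sum_congr rfl fun l _ => ?_
  rw [hG.inv.apply, mul_comm (U k)]

theorem sp_add (T T' U : ι → A) : sp G (fun k => T k + T' k) U = sp G T U + sp G T' U := by
  simp only [sp, mul_add, Finset.sum_add_distrib]

theorem sp_smul (a : A) (T U : ι → A) : sp G (fun k => a * T k) U = a * sp G T U := by
  simp only [sp, Finset.mul_sum, mul_left_comm a]

theorem sp_sum {κ : Type} (s : Finset κ) (T : κ → ι → A) (U : ι → A) :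
    sp G (fun k => ∑ x ∈ s, T x k) U = ∑ x ∈ s, sp G (T x) U := by
  simp only [sp, Finset.mul_sum]
  calc _ = ∑ k, ∑ x ∈ s, ∑ l, G⁻¹ k l * (star (U l) * T x k) :=
        Finset.sum_congr rfl fun _ _ => Finset.sum_comm
    _ = _ := Finset.sum_comm

theorem d_inv (hu : IsUnit G.det) (j k l : ι) :
    D.d j (G⁻¹ k l) = -∑ m, D.Gam G j k m * G⁻¹ m l := by
  rw [← DR.dM_apply, D.dM_inv hu, Matrix.neg_apply, Matrix.mul_apply]

theorem d_sp (hu : IsUnit G.det) (j : ι) (T U : ι → A) :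
    D.d j (sp G T U) = sp G (nb D G j T) U + sp G T fun l => D.db j (U l) := by
  have e3 : ∑ k, ∑ l, (∑ m, D.Gam G j k m * G⁻¹ m l) * (star (U l) * T k) =
      ∑ k, ∑ l, G⁻¹ k l * (star (U l) * ∑ m, D.Gam G j m k * T m) := by
    simp only [Finset.mul_sum, Finset.sum_mul]
    rw [DR.sum_swap3]
    simp only [mul_assoc, mul_left_comm]
  simp only [sp, map_sum, D.mul, d_inv hu, nb, neg_mul, Finset.sum_add_distrib,
    Finset.sum_neg_distrib, e3, mul_add, D.star_db, mul_sub, Finset.sum_sub_distrib]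
  ring

theorem db_sp (hG : G.IsHermitian) (hu : IsUnit G.det) (j : ι) (T U : ι → A) :
    D.db j (sp G T U) = sp G (fun l => D.db j (T l)) U + sp G T (nb D G j U) := by
  rw [DR.db_apply, star_sp hG, d_sp hu, star_add, star_sp hG, star_sp hG, add_comm]

theorem db_nb (i j : ι) (T : ι → A) (k : ι) :
    D.db i (nb D G j T k) = nb D G j (fun l => D.db i (T l)) k + ∑ m, D.Th G j i m k * T m := by
  simp only [nb, DR.Th, map_sub, map_sum, D.leib_db i _ _, D.d_db, Matrix.neg_apply, DR.bM_apply,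
    Finset.sum_add_distrib, neg_mul, Finset.sum_neg_distrib]
  ring

theorem lap_sp (hG : G.IsHermitian) (hu : IsUnit G.det) (T : ι → A) : D.lap G (sp G T T) =
    ∑ j, ∑ i, G⁻¹ j i * sp G (nb D G j T) (nb D G i T) +
    ∑ j, ∑ i, G⁻¹ j i * sp G (fun l => D.db i (T l)) (fun l => D.db j (T l)) +
    sp G (fun k => ∑ j, ∑ i, G⁻¹ j i * nb D G j (fun l => D.db i (T l)) k) T +
    sp G T (fun k => ∑ j, ∑ i, G⁻¹ j i * nb D G j (fun l => D.db i (T l)) k) +
    sp G (fun k => ∑ j, ∑ i, G⁻¹ j i * ∑ m, D.Th G j i m k * T m) T := by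
  have e : sp G T (fun k => ∑ j, ∑ i, G⁻¹ j i * nb D G j (fun l => D.db i (T l)) k) =
      ∑ j, ∑ i, G⁻¹ j i * sp G T (nb D G i fun l => D.db j (T l)) := by
    rw [← star_sp hG]
    simp only [sp_sum, sp_smul, star_sum, star_mul', star_sp hG, hG.inv.apply]
    exact Finset.sum_comm
  rw [e, DR.lap_eq]
  simp only [d_sp hu, map_add, db_sp hG hu, db_nb, sp_add, sp_sum Finset.univ
    (fun j k => ∑ i, G⁻¹ j i * _), sp_sum Finset.univ (fun i k => G⁻¹ _ i * _),
    sp_smul, mul_add, Finset.sum_add_distrib]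
  ring

theorem d_lap (hu : IsUnit G.det) (hK : D.Kah G) (u : A) (k : ι) :
    ∑ j, ∑ i, G⁻¹ j i * nb D G j (fun l => D.db i (D.d l u)) k = D.d k (D.lap G u) := by
  have e : ∑ j, ∑ i, (∑ m, D.Gam G k j m * G⁻¹ m i) * D.db i (D.d j u) =
      ∑ j, ∑ i, G⁻¹ j i * ∑ m, D.Gam G j m k * D.db i (D.d m u) := by
    simp only [Finset.mul_sum, Finset.sum_mul]
    rw [DR.sum_swap3]
    simp only [D.Gam_symm hK _ k, mul_assoc, mul_left_comm]
  simp only [DR.lap_eq, map_sum, D.mul, d_inv hu, nb, neg_mul, Finset.sum_add_distrib,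
    Finset.sum_neg_distrib, e, mul_sub, Finset.sum_sub_distrib, D.d_db, D.dd k]
  ring

theorem tr_dd {f : A} (hf : star f = f) (g : A) :
    trace (G⁻¹ * ddA D f g) = sp G (fun k => D.d k g) fun k => D.d k f := by
  simp only [sp, ddA, trace, diag_apply, Matrix.mul_apply, of_apply, D.star_d, hf]

theorem star_lap (hG : G.IsHermitian) {u : A} (h : star u = u) : star (D.lap G u) = D.lap G u := by
  rw [DR.lap, ← trace_conjTranspose, conjTranspose_mul, (D.hess_herm h).eq, hG.inv.eq,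
    trace_mul_comm]

theorem bochner (hG : G.IsHermitian) (hu : IsUnit G.det) (hK : D.Kah G) {u : A}
    (h : star u = u) : D.lap G (trace (G⁻¹ * ddA D u u)) =
      ∑ j, ∑ i, G⁻¹ j i * sp G (nb D G j fun k => D.d k u) (nb D G i fun k => D.d k u) +
      trace (G⁻¹ * D.hess u * G⁻¹ * D.hess u) + trace (G⁻¹ * ddA D u (D.lap G u)) +
      trace (G⁻¹ * ddA D (D.lap G u) u) + trace (G⁻¹ * D.Ric G * G⁻¹ * ddA D u u) := by
  have e1 : ∑ j, ∑ i, G⁻¹ j i * sp G (fun l => D.db i (D.d l u)) (fun l => D.db j (D.d l u)) =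
      trace (G⁻¹ * D.hess u * G⁻¹ * D.hess u) := by
    simp only [sp, trace, diag_apply, Matrix.mul_apply, DR.hess, of_apply, Finset.mul_sum,
      Finset.sum_mul, D.star_db, D.star_d, h, D.d_db]
    refine Finset.sum_congr rfl fun j _ => ?_
    rw [DR.sum_swap3]
    refine Finset.sum_congr rfl fun l _ => Finset.sum_congr rfl fun k _ =>
      Finset.sum_congr rfl fun i _ => ?_
    ring
  have e2 : sp G (fun k => ∑ j, ∑ i, G⁻¹ j i * ∑ m, D.Th G j i m k * D.d m u) (fun k => D.d k u) =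
      trace (G⁻¹ * D.Ric G * G⁻¹ * ddA D u u) := by
    have e : ∀ k, ∑ j, ∑ i, G⁻¹ j i * ∑ m, D.Th G j i m k * D.d m u =
        ∑ m, (G⁻¹ * D.Ric G) m k * D.d m u := fun k => by
      rw [← D.ctr_Th hG hu hK]
      simp only [Matrix.sum_apply, Matrix.smul_apply, smul_eq_mul, Finset.mul_sum, Finset.sum_mul,
        mul_assoc]
      calc _ = ∑ j, ∑ m, ∑ i, G⁻¹ j i * (D.Th G j i m k * D.d m u) :=
            Finset.sum_congr rfl fun _ _ => Finset.sum_comm
        _ = _ := Finset.sum_comm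
    simp only [e]
    generalize G⁻¹ * D.Ric G = R
    simp only [sp, ddA, trace, diag_apply, Matrix.mul_apply, of_apply, Finset.mul_sum,
      Finset.sum_mul, D.star_d, h]
    rw [DR.sum_swap3]
    refine Finset.sum_congr rfl fun m _ => Finset.sum_congr rfl fun l _ =>
      Finset.sum_congr rfl fun k _ => ?_
    ring
  rw [tr_dd h, lap_sp hG hu, e1, e2, tr_dd h, tr_dd (star_lap hG h)]
  simp only [d_lap hu hK]

end alg

theorem sp_nonneg {ι : Type} [Fintype ι] [DecidableEq ι] {G : Matrix ι ι ℂ} (hG : G.PosDef)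
    (T : ι → ℂ) : 0 ≤ sp G T T :=
  ctr_nonneg (fun a b : ℂ => star b * a)
    (fun a T U => by simp only [smul_eq_mul, Finset.mul_sum, mul_left_comm])
    (fun a b => by rw [star_mul', star_star, mul_comm]) (fun a => star_mul_self_nonneg a)
    hG.inv.posSemidef T

theorem ctr_sp_nonneg {ι : Type} [Fintype ι] [DecidableEq ι] {G : Matrix ι ι ℂ} (hG : G.PosDef)
    (T : ι → ι → ℂ) : 0 ≤ ∑ j, ∑ i, G⁻¹ j i * sp G (T j) (T i) := by
  refine ctr_nonneg (sp G) (fun a T U => ?_) (star_sp hG.1) (sp_nonneg hG) hG.inv.posSemidef T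
  have : (∑ j, a j • T j) = fun k => ∑ j, a j * T j k := by
    funext k
    simp only [Finset.sum_apply, Pi.smul_apply, smul_eq_mul]
  rw [this, sp_sum]
  simp only [sp_smul]

variable {n : ℕ} {z : E n} {G : E n → Mat n} {u : E n → ℂ}

/-- The covariant Hessian in coordinates. -/
def nbF (G : E n → Mat n) (u : E n → ℂ) (j k : Fin n) (z : E n) : ℂ :=
  dz j (dz k u) z - ∑ m, gam G j z m k * dz m u z

theorem bochner_loc (h : Loc G z) (hK : Kl G z) (hu : ContDiffAt ℝ ∞ u z)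
    (hr : ∀ w, star (u w) = u w) :
    ((G z)⁻¹ * hess (fun w => ((G w)⁻¹ * dd u u w).trace) z).trace =
      ∑ j, ∑ i, (G z)⁻¹ j i * sp (G z) (fun k => nbF G u j k z) (fun k => nbF G u i k z) +
      ((G z)⁻¹ * hess u z * (G z)⁻¹ * hess u z).trace +
      ((G z)⁻¹ * dd u (fun w => ((G w)⁻¹ * hess u w).trace) z).trace +
      ((G z)⁻¹ * dd (fun w => ((G w)⁻¹ * hess u w).trace) u z).trace +
      ((G z)⁻¹ * ricF G z * (G z)⁻¹ * dd u u z).trace := by
  obtain ⟨M, hM, h1, hv⟩ := h.rep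
  obtain ⟨a, ha⟩ := exists_rep hu
  have h0 := h.det_ne
  have hi := hM.inv h0
  have hs : star a = a := ha.star.ext ha (Eventually.of_forall hr)
  have hd : ∀ {b c : Gm z} {f g : E n → ℂ}, Rep b f → Rep c g →
      RepM (ddA (germDR z) b c) (dd f g) := fun hb hc i j => (hb.db i).mul (hc.d j)
  have hl := hM.lap h0 ha
  have hh : RepM ((germDR z).hess a) (hess u) := ha.hess
  have hn : ∀ j k, Rep (nb (germDR z) M j (fun k => (germDR z).d k a) k) (nbF G u j k) :=
    fun j k => ((ha.d k).d j).sub (Rep.sum _ fun m => (hM.gam h0 j m k).mul (ha.d m))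
  exact (hM.lap h0 (hi.mul (hd ha ha)).trace).val
    (((((Rep.sum _ fun j => Rep.sum _ fun i => (hi j i).mul (Rep.sum _ fun k => Rep.sum _ fun l =>
      (hi k l).mul ((hn i l).star.mul (hn j k)))).add (((hi.mul hh).mul hi).mul hh).trace).add
      (hi.mul (hd ha hl)).trace).add (hi.mul (hd hl ha)).trace).add
      (((hi.mul (h.rep_ric hM)).mul hi).mul (hd ha ha)).trace)
    (bochner h1 hv (hM.kl hK) hs)

/-- The inequality of Bochner. -/
theorem boch (n : ℕ) (M : Mf n) (G : M.Fam (Mat n)) (u : M.X → ℝ) (hG : M.Kae G) (hu : M.Sm u)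
    (x : M.X) : M.ip G (M.hs u) (M.hs u) x + M.ip G (M.ric G) (M.ds u u) x +
      2 * M.gr G (M.lap G u) u x ≤ M.lap G (M.gr G u u) x := by
  obtain ⟨i1, i2, i3, -⟩ := mINV n M G hG.toMet
  obtain ⟨e1, e2, e3, -⟩ := mHES n M
  obtain ⟨-, -, l3⟩ := mLAP n M _ _ hu hu
  obtain ⟨s1, s2, -⟩ := l3 G hG.toMet
  obtain ⟨-, -, l4⟩ := mLAP n M _ _ s1 hu
  obtain ⟨-, -, l5, -⟩ := l4 G hG.toMet
  have he := M.ch_mem x
  have hz := M.ch_tgt x
  have lG := met_loc hG.toMet he hz
  have v1 : M.lc (M.gr G u u) (M.ch x) =ᶠ[𝓝 (M.ch x x)] fun w =>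
      ((G (M.ch x) w)⁻¹ * dd (M.lc u (M.ch x)) (M.lc u (M.ch x)) w).trace :=
    ((i2 _ (e3 u hu).1).ev he hz).mono fun w hw => hw.1
  have v2 : M.lc (M.lap G u) (M.ch x) =ᶠ[𝓝 (M.ch x x)] fun w =>
      ((G (M.ch x) w)⁻¹ * hess (M.lc u (M.ch x)) w).trace :=
    ((i2 _ (e1 u hu).toForm).ev he hz).mono fun w hw => hw.1
  have key := congrArg Complex.re (bochner_loc lG (clo_kl hG.toClo he hz) (hu.lc _ he _ hz)
    fun w => Complex.conj_ofReal _)
  have pos := (nonneg_iff.1 (ctr_sp_nonneg lG.pos fun j k =>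
    nbF (G (M.ch x)) (M.lc u (M.ch x)) j k (M.ch x x))).1
  rw [← hess_congr v1, ← dd_congr (EventuallyEq.refl _ _) v2,
    ← dd_congr v2 (EventuallyEq.refl _ _)] at key
  simp only [add_re] at key
  have c : M.gr G (M.lap G u) u x = M.gr G u (M.lap G u) x := (l5 x 0).2.2.2.2.2.1
  have a1 : M.lap G (M.gr G u u) x = _ := key
  have a2 : M.ip G (M.hs u) (M.hs u) x = ((G (M.ch x) (M.ch x x))⁻¹ *
    hess (M.lc u (M.ch x)) (M.ch x x) * (G (M.ch x) (M.ch x x))⁻¹ *
    hess (M.lc u (M.ch x)) (M.ch x x)).trace.re := rfl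
  have a3 : M.ip G (M.ric G) (M.ds u u) x = ((G (M.ch x) (M.ch x x))⁻¹ *
    ricF (G (M.ch x)) (M.ch x x) * (G (M.ch x) (M.ch x x))⁻¹ *
    dd (M.lc u (M.ch x)) (M.lc u (M.ch x)) (M.ch x x)).trace.re := rfl
  have a4 : M.gr G u (M.lap G u) x = ((G (M.ch x) (M.ch x x))⁻¹ *
    dd (M.lc u (M.ch x)) (M.lc (M.lap G u) (M.ch x)) (M.ch x x)).trace.re := rfl
  have a5 : M.gr G (M.lap G u) u x = ((G (M.ch x) (M.ch x x))⁻¹ *
    dd (M.lc (M.lap G u) (M.ch x)) (M.lc u (M.ch x)) (M.ch x x)).trace.re := rfl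
  rw [← a2, ← a3, ← a4, ← a5] at a1
  linarith

end Pool.Agent.Lib.ZK26
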