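import Pool.Agent.Lib.ZK26.Boch
import Pool.Agent.Lib.HS21.B_C2

/-! A lower bound for a Kaehler metric and a bound for a gradient. -/

open scoped Topology ComplexOrder Matrix
open Set Filter Complex

noncomputable section

namespace Pool.Agent.Lib.ZK26

open Pool.Agent.Lib.SV (E)
open Pool.Agent.Lib.HS32 Pool.Agent.Lib.HS32.Mf Pool.Agent.Lib.HS76 Pool.Agent.Lib.HS21

variable {n : ℕ} {M : Mf n} {H G S : M.Fam (Mat n)}

theorem tr_low [M.Cpt] (hn : 0 < n) (hH : M.Kae H) (hG : M.Kae G) {w : M.X → ℝ} (hw : M.Sm w)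
    {c₀ c C t b : ℝ} (h0 : 0 < c₀) (hc : 0 ≤ c) (hS : M.Le (c₀ • H) S)
    (he : M.All fun e z => G e z = S e z + M.hs w e z)
    (hC : M.All fun e z => ∀ a b v w, normSq (rm (H e) z a b v w) ≤
      C * (nq (H e z) a * nq (H e z) b * nq (H e z) v * nq (H e z) w))
    (hr : M.Le (-(c • H) - t • G) (M.ric G)) (hb : ∀ x y, w x - w y ≤ b) (x : M.X) :
    M.tr G H x ≤ (t + (c + √C + 1) / c₀ * n) * Real.exp ((c + √C + 1) / c₀ * b) := by
  obtain ⟨hT, hp, h3, -⟩ := HS.st_CLG mINV mLAP mHES n M _ H hG hH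
  have hp := hp hn
  set A := (c + √C + 1) / c₀ with hA
  have hA0 : 0 < A := by positivity
  have hA1 : A * c₀ = c + √C + 1 := div_mul_cancel₀ _ h0.ne'
  have hl := hT.log fun y => (hp y).ne'
  have hv := hw.const_mul A
  obtain ⟨y, hy⟩ := (hl.sub hv).exists_max
  have a1 := ((((mLAP n M _ _ (hl.sub hv) hw).2.2 _ hG.toMet).2.2.1 y 0).2.2.2.2.2.2.2.2.1
    (Eventually.of_forall hy)).1
  rw [(((mLAP n M _ _ hl hv).2.2 _ hG.toMet).2.2.1 y 0).2.2.1,
    (((mLAP n M _ _ hw hw).2.2 _ hG.toMet).2.2.1 y A).2.2.2.1,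
    (((mLAP n M _ _ hT hT).2.2 _ hG.toMet).2.2.2.1 Real.log
      (fun y => Real.contDiffAt_log.2 (hp y).ne') y).1, HS.CLG.deriv2_log, Real.deriv_log] at a1
  have a2 : M.lap G w y = n - M.tr G S y := by
    rw [← hG.toMet.tr_self (x := y), ← tr_sub, lap]
    exact congrFun (tr_congr (fun _ _ _ _ => rfl) fun e h z hz => by
      show _ = G e z - S e z
      rw [he e h z hz, add_sub_cancel_left]) y
  have a6 := hG.toMet.tr_mono hS y
  rw [tr_smul] at a6
  obtain ⟨b1, -, b2⟩ := AllOn.ch h3 y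
  rw [ch_symm] at b1 b2
  have gp := hG.toMet.ev_pos y
  have hp' := (hH.toMet.ev_pos y).posSemidef
  have b3 : -(√C * M.tr G H y ^ 2) ≤ _ := C2.qq_ge (G := G (M.ch y)) gp hp' (AllOn.ch hC y)
  have b4 : M.ip G H (-(c • H) - t • G) y ≤ M.ip G H (M.ric G) y :=
    tr_mul_mono (conj_inv_psd gp hp') (AllOn.ch hr y)
  rw [ip_sub, ← neg_smul, ip_smul, ip_smul, hG.toMet.ip_self] at b4
  have b5 := tr2_le_sq gp hp'
  rw [← mul_assoc] at b5
  have b6 : M.ip G H H y ≤ M.tr G H y ^ 2 := b5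
  have a3 := C2.last (c := c + √C) (t := t) (hp y) b1 b2
    (by nlinarith [mul_le_mul_of_nonneg_left b6 hc])
  have a4 : M.tr G H y ≤ t + A * n := by
    rw [a2] at a1
    have a7 := mul_le_mul_of_nonneg_left a6 hA0.le
    rw [← mul_assoc, hA1] at a7
    nlinarith
  have a5 : Real.log (M.tr G H x) ≤ Real.log (M.tr G H y) + A * b := by
    nlinarith [hy x, mul_le_mul_of_nonneg_left (hb x y) hA0.le]
  rw [Real.log_le_iff_le_exp (hp x), Real.exp_add, Real.exp_log (hp y)] at a5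
  exact a5.trans (mul_le_mul_of_nonneg_right a4 (Real.exp_pos _).le)

/-- The lower bound of Chern and Lu. -/
theorem low [M.Cpt] (hH : M.Kae H) {c₀ : ℝ} (h0 : 0 < c₀) (C₀ : ℝ) : ∃ K : ℝ, 0 < K ∧
    ∀ (G S : M.Fam (Mat n)) (w : M.X → ℝ), M.Kae G → M.Sm w → M.Le (c₀ • H) S →
      (M.All fun e z => G e z = S e z + M.hs w e z) → (∀ x y, w x - w y ≤ C₀) →
      M.Le (-(G + C₀ • H)) (M.ric G) → M.Le H (K • G) := by
  rcases Nat.eq_zero_or_pos n with rfl | hn
  · have h0 : ∀ A : Mat 0, A.PosSemidef := fun A => Subsingleton.elim 0 A ▸ .zero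
    exact ⟨1, one_pos, fun _ _ _ _ _ _ _ _ _ _ _ _ _ => h0 _⟩
  obtain ⟨C, -, hC⟩ := (mBD n M H hH.toMet).2.1
  refine ⟨(1 + (|C₀| + √C + 1) / c₀ * n) * Real.exp ((|C₀| + √C + 1) / c₀ * C₀), by positivity,
    fun G S w hG hw hS he hb hr e h z hz => ?_⟩
  have hc : 0 ≤ C₀ := by
    have : Nonempty M.X := inferInstance
    obtain ⟨x⟩ := this
    simpa using hb x x
  rw [abs_of_nonneg hc]
  have := tr_low (t := 1) hn hH hG hw h0 hc hS he hC
    (hr.congr (fun e _ z _ => by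
      simp only [one_smul, Pi.sub_apply, Pi.neg_apply, Pi.add_apply]
      abel) fun _ _ _ _ => rfl) hb
  exact le_tr_smul (hG.pos e h z hz) (hH.pos e h z hz).posSemidef
    ((((mINV n M _ hG.toMet).1 H hH.toTen).1 e h z hz).symm.trans_le (this _))

theorem ip_self_nonneg (hG : M.Met G) (hS : M.Form S) (x : M.X) : 0 ≤ M.ip G S S x := by
  have h := HS68.trace_form_nonneg (hG.ev_pos x) (hG.ev_pos x).inv.posSemidef (M.ev S x)
  rw [show (M.ev S x)ᴴ = M.ev S x from (AllOn.ch hS.herm x).eq] at h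
  exact (nonneg_iff.1 h).1

/-- The maximum principle for the resolvent. -/
theorem res_bd [M.Cpt] (hG : M.Met G) {u f : M.X → ℝ} (hu : M.Sm u)
    (h : ∀ x, u x - M.lap G u x = f x) {a b : ℝ} (hf : ∀ x, a ≤ f x ∧ f x ≤ b) (x : M.X) :
    a ≤ u x ∧ u x ≤ b := by
  obtain ⟨y, hy⟩ := hu.exists_max
  obtain ⟨y', hy'⟩ := hu.exists_min
  have l := ((mLAP n M _ _ hu hu).2.2 _ hG).2.2.1
  have a1 := ((l y 0).2.2.2.2.2.2.2.2.1 (Eventually.of_forall hy)).1
  have a2 := ((l y' 0).2.2.2.2.2.2.2.2.2 (Eventually.of_forall hy')).1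
  constructor <;> linarith [h y, h y', hf y, hf y', hy x, hy' x]

/-- The inequality of Bochner for a solution of the resolvent equation. -/
theorem boch_res (hG : M.Kae G) {u f : M.X → ℝ} (hu : M.Sm u) (hf : M.Sm f)
    (h : ∀ x, u x - M.lap G u x = f x) (x : M.X) :
    M.ip G (M.hs u) (M.hs u) x + M.ip G (M.ric G) (M.ds u u) x + 2 * M.gr G u u x -
      2 * M.gr G f u x ≤ M.lap G (M.gr G u u) x := by
  have e : M.lap G u = fun y => u y - f y := funext fun y => by linarith [h y]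
  have b := boch n M G u hG hu x
  have d : M.gr G (fun y => u y - f y) u x = M.gr G u u x - M.gr G f u x := by
    rw [gr, gr, gr, ← tr_sub]
    refine congrFun (tr_congr (fun _ _ _ _ => rfl) fun e he z hz => ?_) x
    ext i j
    have := dzb_sub (j := i) (cd_diff (hu.lc e he z hz)) (cd_diff (hf.lc e he z hz))
    simp only [ds, dd, Pi.sub_apply, Matrix.sub_apply, Matrix.of_apply, ← sub_mul, ← this]
    refine congrArg (· * _) (congrArg (fun g => dzb i g z) (funext fun w => ?_))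
    simp only [lc, ofReal_sub]
  rw [e, d] at b
  linarith

/-- The bound for the gradient. -/
theorem grd [M.Cpt] (hG : M.Kae G) {u f : M.X → ℝ} (hu : M.Sm u) (hf : M.Sm f)
    (h : ∀ x, u x - M.lap G u x = f x) {C : ℝ} (hb : ∀ x, |f x| ≤ C)
    (hr : ∀ x, -C - C * M.gr G u u x ≤
      M.ip G (M.ric G) (M.ds u u) x + M.gr G u u x - 2 * M.gr G f u x) (x : M.X) :
    M.gr G u u x ≤ C + 2 * C ^ 3 := by
  have hC : 0 ≤ C := (abs_nonneg _).trans (hb x)
  have hub := res_bd hG.toMet hu h fun x => abs_le.1 (hb x)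
  obtain ⟨-, hz, l⟩ := (mLAP n M _ _ hu hu).2.2 _ hG.toMet
  have h2 := hu.mul hu
  have h3 := h2.const_mul (C / 2)
  obtain ⟨y, hy⟩ := (hz.add h3).exists_max
  have a1 := ((((mLAP n M _ _ (hz.add h3) hu).2.2 _ hG.toMet).2.2.1 y 0).2.2.2.2.2.2.2.2.1
    (Eventually.of_forall hy)).1
  rw [(((mLAP n M _ _ hz h3).2.2 _ hG.toMet).2.2.1 y 0).2.1,
    (((mLAP n M _ _ h2 h2).2.2 _ hG.toMet).2.2.1 y (C / 2)).2.2.2.1, (l.1 y 0).2.2.2.2.1] at a1
  have a2 := boch_res hG hu hf h y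
  have a3 := ip_self_nonneg hG.toMet ((mHES n M).1 u hu).toForm y
  have a4 : M.lap G u y = u y - f y := by linarith [h y]
  have a5 : u y * f y ≤ C ^ 2 := by
    have := abs_le.1 (hb y)
    nlinarith [hub y]
  have a6 : u y * u y ≤ C ^ 2 := by nlinarith [hub y]
  have a7 := mul_le_mul_of_nonneg_left a5 hC
  have a8 := mul_le_mul_of_nonneg_left a6 hC
  have a9 := mul_nonneg hC (mul_self_nonneg (u y))
  have a10 := mul_nonneg hC (mul_self_nonneg (u x))
  have a11 := hy x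
  have a12 := pow_nonneg hC 3
  rw [a4] at a1
  nlinarith [hr y]

end Pool.Agent.Lib.ZK26
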