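import Pool.Agent.Lib.ZK26.Hol

/-! An integral inequality and the complement of Schur. -/

open scoped Topology ContDiff ComplexOrder Matrix
open Filter Complex MeasureTheory

noncomputable section

namespace Pool.Agent.Lib.ZK26

open Pool.Agent.Lib.SV (E)
open Pool.Agent.Lib.HS32 Pool.Agent.Lib.HS32.Mf

variable {n : ℕ} {M : Mf n} {G A Q : M.Fam (Mat n)}

theorem cut_le {s ε : ℝ} (hε : 0 < ε) : max s 0 - ε ≤ Real.smoothTransition (s / ε) * s := by
  rcases le_total s 0 with h | h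
  · rw [Real.smoothTransition.zero_of_nonpos (div_nonpos_of_nonpos_of_nonneg h hε.le),
      max_eq_right h]
    linarith
  · rw [max_eq_left h]
    rcases le_total ε s with h' | h'
    · rw [Real.smoothTransition.one_of_one_le ((one_le_div hε).2 h')]
      linarith
    · linarith [mul_nonneg (Real.smoothTransition.nonneg (s / ε)) h]

/-- The integrated form of the inequality of Chern and Lu. -/
theorem int_pos [M.Cpt] (hG : M.Kae G) {f q : M.X → ℝ} (hf : M.Sm f) (hp : ∀ x, 0 < f x)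
    (hq : Continuous q) (h0 : ∀ x, 0 ≤ q x) {N : ℝ} (hN : 0 ≤ N)
    (h : ∀ x, N * f x - 1 - q x ≤ M.lap G (fun y => Real.log (f y)) x) :
    ∫ x, max (N * f x - 1) 0 ∂M.mu G ≤ ∫ x, q x ∂M.mu G := by
  obtain ⟨-, hfin, -, hv, hi, -⟩ := mMU n M G hG.toMet
  have hi := hi ℝ
  have hc : Continuous fun x => N * f x - 1 := (continuous_const.mul hf.continuous).sub
    continuous_const
  refine le_of_forall_pos_le_add fun δ hδ => ?_
  set ε := δ / (M.mu G).real Set.univ with hε
  have he : 0 < ε := div_pos hδ hv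
  set ψ : ℝ → ℝ := fun s => Real.smoothTransition ((N * s - 1) / ε) with hψ
  have p1 : ContDiff ℝ ∞ ψ := Real.smoothTransition.contDiff.comp (by fun_prop)
  have p2 : Monotone ψ := fun a b hab => Real.smoothTransition.monotone (by gcongr)
  have hl := hf.log fun y => (hp y).ne'
  have hs : M.Sm fun x => ψ (f x) := hf.comp fun _ => p1.contDiffAt
  have g1 := ((mGRN n M).2 G _ _ hG hl hs).2.1
  have g2 : ∀ x, 0 ≤ M.gr G (fun y => Real.log (f y)) (fun y => ψ (f y)) x := fun x => by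
    obtain ⟨-, -, a, b, -⟩ := (mLAP n M _ _ hf hs).2.2 G hG.toMet
    obtain ⟨-, -, c, d, -⟩ := (mLAP n M _ _ hf hf).2.2 G hG.toMet
    rw [(b Real.log (fun y => Real.contDiffAt_log.2 (hp y).ne') x).2, (a x 0).2.2.2.2.2.1,
      (d ψ (fun _ => p1.contDiffAt) x).2, Real.deriv_log]
    exact mul_nonneg (inv_pos.2 (hp x)).le (mul_nonneg p2.deriv_nonneg (c x 0).2.2.2.2.2.2.1)
  have g3 : 0 ≤ ∫ x, M.gr G (fun y => Real.log (f y)) (fun y => ψ (f y)) x ∂M.mu G :=
    integral_nonneg g2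
  have hL := ((mLAP n M _ _ hl hl).2.2 G hG.toMet).1
  have g4 : ∫ x, (max (N * f x - 1) 0 - ε - q x) ∂M.mu G ≤
      ∫ x, ψ (f x) * M.lap G (fun y => Real.log (f y)) x ∂M.mu G := by
    refine integral_mono (hi _ (((hc.max continuous_const).sub continuous_const).sub hq))
      (hi _ (hs.mul hL).continuous) fun x => ?_
    have a := cut_le (s := N * f x - 1) he
    have b := mul_le_mul_of_nonneg_left (h x) (Real.smoothTransition.nonneg ((N * f x - 1) / ε))
    have c := mul_le_mul_of_nonneg_right (Real.smoothTransition.le_one ((N * f x - 1) / ε)) (h0 x)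
    simp only [hψ]
    nlinarith
  have i1 : Integrable (fun x => max (N * f x - 1) 0) (M.mu G) := hi _ (hc.max continuous_const)
  have i2 : Integrable (fun x => max (N * f x - 1) 0 - ε) (M.mu G) := i1.sub (integrable_const _)
  rw [integral_sub i2 (hi _ hq), integral_sub i1 (integrable_const _), integral_const,
    smul_eq_mul, hε, mul_div_cancel₀ _ hv.ne', g1] at g4
  linarith

/-- The two inequalities together. -/
theorem int_hol [M.Cpt] (hG : M.Kae G) (hA : M.Form A) (hs : Sq M A) (hp : ∀ x, 0 < M.tr G A x)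
    (hQ : M.Form Q) (h0 : M.Le 0 Q) {N : ℝ} (hN : 0 ≤ N) (hr : M.Le (N • A - G - Q) (M.ric G)) :
    ∫ x, max (N * M.tr G A x - 1) 0 ∂M.mu G ≤ ∫ x, M.tr G Q x ∂M.mu G :=
  int_pos hG ((mINV n M G hG.toMet).1 A hA.toTen).2.1 hp
    ((mINV n M G hG.toMet).1 Q hQ.toTen).2.1.continuous (hG.toMet.tr_nonneg h0) hN
    (cl_hol_le hG hA hs hp hQ h0 hr)

/-- The complement of Schur. -/
theorem schur {T : Mat (n + 1)} (hT : T.PosDef) : (T.submatrix Fin.succ Fin.succ).PosDef ∧
    (T.submatrix Fin.succ Fin.succ).det = T⁻¹ 0 0 * T.det ∧ 0 < (T⁻¹ 0 0).re ∧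
    T⁻¹ 0 0 = ((T⁻¹ 0 0).re : ℂ) ∧ 1 ≤ (T 0 0).re * (T⁻¹ 0 0).re := by
  have hd := hT.det_pos.ne'
  have h1 := hT.inv.diag_pos (i := 0)
  refine ⟨hT.submatrix (Fin.succ_injective n), ?_, (pos_iff.1 h1).1,
    Complex.ext rfl (pos_iff.1 h1).2.symm, ?_⟩
  · rw [Matrix.inv_def, Matrix.smul_apply, Matrix.adjugate_fin_succ_eq_det_submatrix,
      Ring.inverse_eq_inv, smul_eq_mul]
    simp only [Fin.val_zero, add_zero, pow_zero, one_mul, Fin.succAbove_zero]
    field_simp
  · have h := HS76.psd_cs hT.posSemidef (Pi.single 0 1) (T⁻¹ *ᵥ Pi.single 0 1)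
    rw [Matrix.mulVec_mulVec, Matrix.mul_nonsing_inv _ hd.isUnit, Matrix.one_mulVec] at h
    simpa [← Pi.single_star, hT.inv.1.apply] using h

end Pool.Agent.Lib.ZK26
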